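import Mathlib

/-!
A combinatorial lemma (Bartholdi): a finite set `Y` with subsets `X s` (`s ∈ S`, `n = |S|`) such that
for all `i ∈ I ⊆ S` exactly `n! / |I|` elements of `Y` lie in `X i` and in no other `X j`, `j ∈ I`,
while `|Y| = n! * H_n`.
-/

set_option autoImplicit false

open Finset

namespace Pool.Agent.Work.MP_87745a_al

theorem sum_weight {α : Type*} [DecidableEq α] (A : Finset α) : ∀ n : ℕ, A.card < n →
    (n - A.card) * ∑ J ∈ A.powerset, (J.card.factorial * (n - 1 - J.card).factorial)
      = n.factorial := by
  induction A using Finset.induction_on with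
  | empty =>
    intro n hn
    simp only [card_empty, Nat.sub_zero, powerset_empty, sum_singleton, Nat.factorial_zero,
      one_mul]
    exact Nat.mul_factorial_pred (by simpa using (Nat.pos_iff_ne_zero.mp hn))
  | insert b A hb ih =>
    intro n hn
    rw [card_insert_of_notMem hb] at hn ⊢
    rw [sum_powerset_insert hb]
    have h1 : ∀ J ∈ A.powerset, J.card.factorial * (n - 1 - J.card).factorial +
        (insert b J).card.factorial * (n - 1 - (insert b J).card).factorial
        = n * (J.card.factorial * (n - 1 - 1 - J.card).factorial) := by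
      intro J hJ
      rw [mem_powerset] at hJ
      have hbJ : b ∉ J := fun h => hb (hJ h)
      have hJc : J.card ≤ A.card := card_le_card hJ
      rw [card_insert_of_notMem hbJ]
      obtain ⟨m, rfl⟩ : ∃ m, n = J.card + m + 2 := ⟨n - J.card - 2, by omega⟩
      have e1 : J.card + m + 2 - 1 - J.card = m + 1 := by omega
      have e2 : J.card + m + 2 - 1 - (J.card + 1) = m := by omega
      have e3 : J.card + m + 2 - 1 - 1 - J.card = m := by omega
      rw [e1, e2, e3, Nat.factorial_succ, Nat.factorial_succ]
      ring
    rw [← sum_add_distrib, sum_congr rfl h1, ← mul_sum]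
    have h2 := ih (n - 1) (by omega)
    have e4 : n - (A.card + 1) = n - 1 - A.card := by omega
    rw [e4]
    have h3 : (n - 1 - A.card) * (n * ∑ J ∈ A.powerset,
        (J.card.factorial * (n - 1 - 1 - J.card).factorial))
        = n * ((n - 1 - A.card) * ∑ J ∈ A.powerset,
        (J.card.factorial * (n - 1 - 1 - J.card).factorial)) := by ring
    rw [h3, h2]
    exact Nat.mul_factorial_pred (by omega)

variable (S : Type*) [Fintype S] [DecidableEq S]

/-- weight of a subset -/
def wt (J : Finset S) : ℕ :=
  if J.Nonempty then (J.card - 1).factorial * (Fintype.card S - J.card).factorial else 0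

/-- the index set -/
abbrev YY : Type _ := Σ J : Finset S, Fin (wt S J)

omit [DecidableEq S] in
theorem card_YY : ((Fintype.card (YY S) : ℕ) : ℚ)
    = (Fintype.card S).factorial * harmonic (Fintype.card S) := by
  classical
  have h0 : Fintype.card (YY S) = ∑ m ∈ range (Fintype.card S + 1),
      (Fintype.card S).choose m * (if m = 0 then 0 else (m - 1).factorial *
        (Fintype.card S - m).factorial) := by
    have h := sum_powerset_apply_card (fun m => if m = 0 then 0 else (m - 1).factorial *
        (Fintype.card S - m).factorial) (x := (univ : Finset S))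
    rw [card_univ] at h
    simp only [smul_eq_mul] at h
    rw [← h, Fintype.card_sigma, powerset_univ]
    refine sum_congr rfl fun J _ => ?_
    rw [Fintype.card_fin]
    unfold wt
    by_cases hJ : J.Nonempty
    · rw [if_pos hJ, if_neg hJ.card_pos.ne']
    · rw [if_neg hJ, if_pos (by simpa using hJ)]
  rw [h0, sum_range_succ']
  simp only [if_true, mul_zero, add_zero]
  rw [harmonic, mul_sum]
  push_cast
  refine sum_congr rfl fun m hm => ?_
  rw [mem_range] at hm
  have h1 : (Fintype.card S).choose (m + 1) * ((m + 1).factorial *
      (Fintype.card S - (m + 1)).factorial) = (Fintype.card S).factorial := by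
    rw [← mul_assoc]
    exact Nat.choose_mul_factorial_mul_factorial (by omega)
  rw [← h1, Nat.factorial_succ]
  push_cast
  have hm0 : ((m : ℚ) + 1) ≠ 0 := by positivity
  field_simp

theorem card_private (I : Finset S) (i : S) (hi : i ∈ I) :
    I.card * (univ.filter (fun y : YY S => i ∈ y.1 ∧ ∀ j ∈ I, j ≠ i → j ∉ y.1)).card
      = (Fintype.card S).factorial := by
  classical
  have h1 : (univ.filter (fun y : YY S => i ∈ y.1 ∧ ∀ j ∈ I, j ≠ i → j ∉ y.1)).card
      = ∑ J ∈ univ.filter (fun J : Finset S => i ∈ J ∧ ∀ j ∈ I, j ≠ i → j ∉ J), wt S J := by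
    rw [card_eq_sum_ones, sum_filter, Fintype.sum_sigma, sum_filter]
    refine sum_congr rfl fun J _ => ?_
    by_cases hJ : i ∈ J ∧ ∀ j ∈ I, j ≠ i → j ∉ J
    · simp [hJ]
    · simp only [if_neg hJ, sum_const_zero]
  rw [h1]
  have h2 : ∑ J ∈ univ.filter (fun J : Finset S => i ∈ J ∧ ∀ j ∈ I, j ≠ i → j ∉ J), wt S J
      = ∑ J ∈ (Iᶜ).powerset, (J.card.factorial * (Fintype.card S - 1 - J.card).factorial) := by
    symm
    refine sum_nbij' (fun J => insert i J) (fun J => J.erase i) ?_ ?_ ?_ ?_ ?_
    · intro J hJ
      rw [mem_powerset] at hJ
      simp only [mem_filter, mem_univ, true_and, mem_insert, true_or]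
      intro j hj hji h
      rcases h with h | h
      · exact hji h
      · have := hJ h
        rw [mem_compl] at this
        exact this hj
    · intro J hJ
      simp only [mem_filter, mem_univ, true_and] at hJ
      rw [mem_powerset]
      intro j hj
      rw [mem_erase] at hj
      rw [mem_compl]
      intro hjI
      exact hJ.2 j hjI hj.1 hj.2
    · intro J hJ
      rw [mem_powerset] at hJ
      refine erase_insert ?_
      intro h
      have := hJ h
      rw [mem_compl] at this
      exact this hi
    · intro J hJ
      simp only [mem_filter, mem_univ, true_and] at hJ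
      exact insert_erase hJ.1
    · intro J hJ
      rw [mem_powerset] at hJ
      have hiJ : i ∉ J := by
        intro h
        have := hJ h
        rw [mem_compl] at this
        exact this hi
      unfold wt
      rw [if_pos (insert_nonempty i J), card_insert_of_notMem hiJ]
      congr 2
      omega
  rw [h2]
  have hI : I.card ≤ Fintype.card S := card_le_univ I
  have hIpos : 0 < I.card := card_pos.mpr ⟨i, hi⟩
  have h3 := sum_weight (Iᶜ) (Fintype.card S) (by rw [card_compl]; omega)
  rw [card_compl] at h3
  have e : Fintype.card S - (Fintype.card S - I.card) = I.card := by omega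
  rw [e] at h3
  exact h3

end Pool.Agent.Work.MP_87745a_al
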