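import Mathlib

/-!
A nonzero solution of a homogeneous band system over a division ring: dimension count.
-/

set_option autoImplicit false

open Finset

namespace Pool.Agent.Work.MP_87745a_al

/-- the band operator with parameter `r` -/
def band {D : Type*} [AddCommMonoid D] {N d : ℕ} (r : ℕ) (c : Fin N → Fin d → D) (t : ℕ) : D :=
  ∑ i : Fin N, ∑ j : Fin d, (if r * (i : ℕ) + (j : ℕ) = t then c i j else 0)

theorem band_eq_zero {D : Type*} [AddCommMonoid D] {N d : ℕ} (r R : ℕ) (hr : r ≤ R)
    (c : Fin N → Fin d → D) (t : ℕ) (ht : R * N + d ≤ t) : band r c t = 0 := by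
  unfold band
  refine sum_eq_zero fun i _ => sum_eq_zero fun j _ => ?_
  rw [if_neg]
  intro h
  have h1 : r * (i : ℕ) ≤ R * N := Nat.mul_le_mul hr i.2.le
  have h2 := j.2
  omega

theorem exists_sol {D : Type*} [DivisionRing D] {Y T : Type*} [Fintype Y]
    (X : Y → Finset T) (s : T → D) (r : T → Y → ℕ) (R : ℕ) (hR : ∀ t y, r t y ≤ R) :
    ∃ (d : ℕ) (c : Fin (Fintype.card Y + 1) → Fin d → D), c ≠ 0 ∧
      ∀ y (t : ℕ), ∑ x ∈ X y, band (r x y) c t * s x = 0 := by
  classical
  set N := Fintype.card Y + 1 with hN
  let d := Fintype.card Y * (R * N) + 1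
  let e := R * N + d
  let L : (Fin N × Fin d → D) →ₗ[D] (Y × Fin e → D) :=
    { toFun := fun c yt => ∑ x ∈ X yt.1, band (r x yt.1) (fun i j => c (i, j)) yt.2 * s x
      map_add' := by
        intro c c'
        ext yt
        simp only [Pi.add_apply]
        rw [← sum_add_distrib]
        refine sum_congr rfl fun x _ => ?_
        rw [← add_mul]
        congr 1
        unfold band
        simp only [← sum_add_distrib]
        refine sum_congr rfl fun i _ => sum_congr rfl fun j _ => ?_
        split_ifs <;> simp
      map_smul' := by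
        intro a c
        ext yt
        simp only [Pi.smul_apply, RingHom.id_apply, smul_eq_mul]
        rw [mul_sum]
        refine sum_congr rfl fun x _ => ?_
        rw [← mul_assoc]
        congr 1
        unfold band
        simp only [mul_sum]
        refine sum_congr rfl fun i _ => sum_congr rfl fun j _ => ?_
        split_ifs <;> simp }
  have hlt : Module.finrank D (Y × Fin e → D) < Module.finrank D (Fin N × Fin d → D) := by
    rw [Module.finrank_fintype_fun_eq_card, Module.finrank_fintype_fun_eq_card,
      Fintype.card_prod, Fintype.card_prod, Fintype.card_fin, Fintype.card_fin, Fintype.card_fin]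
    have h1 : Fintype.card Y * e = Fintype.card Y * (R * N) + Fintype.card Y * d := by
      simp only [e]; ring
    have h2 : N * d = Fintype.card Y * d + d := by
      rw [hN]; ring
    rw [h1, h2]
    simp only [d]
    omega
  obtain ⟨c, hc, hc0⟩ := Submodule.exists_mem_ne_zero_of_ne_bot
    (LinearMap.ker_ne_bot_of_finrank_lt (f := L) hlt)
  rw [LinearMap.mem_ker] at hc
  refine ⟨d, fun i j => c (i, j), ?_, ?_⟩
  · intro h
    apply hc0
    ext ⟨i, j⟩
    exact congrFun (congrFun h i) j
  · intro y t
    by_cases ht : t < e
    · exact congrFun hc (y, ⟨t, ht⟩)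
    · refine sum_eq_zero fun x _ => ?_
      rw [band_eq_zero (r x y) R (hR x y) _ t (by simp only [e] at ht; omega), zero_mul]

end Pool.Agent.Work.MP_87745a_al
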