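import Mathlib

/-!
Vandermonde elimination over a division ring: polynomials `p i` over `D` with
`∑ i, X ^ (r k * i) * p i = 0` for as many distinct exponents `r k` as there are `p i` all vanish.
-/

set_option autoImplicit false

open Finset Polynomial

namespace Pool.Agent.Work.MP_87745a_al

theorem vander_poly {D : Type*} [DivisionRing D] {N : ℕ} (r : Fin N → ℕ)
    (hr : Function.Injective r) (p : Fin N → D[X])
    (h : ∀ k, ∑ i : Fin N, (X : D[X]) ^ (r k * (i : ℕ)) * p i = 0) (i₀ : Fin N) : p i₀ = 0 := by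
  classical
  let Z := Subring.center D
  let φ : Z[X] →+* D[X] := Polynomial.mapRingHom (Subring.subtype Z)
  have hφ : Function.Injective φ :=
    Polynomial.map_injective (Subring.subtype Z) Subtype.val_injective
  let V : Matrix (Fin N) (Fin N) Z[X] := Matrix.vandermonde (fun k => (X : Z[X]) ^ (r k))
  have hdet : V.det ≠ 0 := by
    rw [Matrix.det_vandermonde_ne_zero_iff]
    intro a b hab
    have h1 : (X : Z[X]) ^ (r a) = (X : Z[X]) ^ (r b) := hab
    have h2 := congrArg Polynomial.natDegree h1
    rw [natDegree_X_pow, natDegree_X_pow] at h2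
    exact hr h2
  have h1 : ∀ k, ∑ i : Fin N, φ (V k i) * p i = 0 := by
    intro k
    rw [← h k]
    refine sum_congr rfl fun i _ => ?_
    congr 1
    simp only [V, Matrix.vandermonde_apply, φ, Polynomial.coe_mapRingHom, Polynomial.map_pow,
      Polynomial.map_X]
    rw [pow_mul]
  have h2 : φ V.det * p i₀ = 0 := by
    have h3 : ∀ i, φ ((V.adjugate * V) i₀ i) = ∑ k, φ (V.adjugate i₀ k) * φ (V k i) := by
      intro i
      rw [Matrix.mul_apply, map_sum]
      exact sum_congr rfl fun k _ => map_mul _ _ _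
    have h4 : ∑ i, φ ((V.adjugate * V) i₀ i) * p i = 0 := by
      simp only [h3, sum_mul]
      rw [sum_comm]
      refine sum_eq_zero fun k _ => ?_
      simp only [mul_assoc]
      rw [← mul_sum, h1 k, mul_zero]
    rw [Matrix.adjugate_mul] at h4
    rw [← h4, sum_eq_single i₀]
    · simp [Matrix.smul_apply]
    · intro i _ hi
      rw [Matrix.smul_apply, Matrix.one_apply_ne hi.symm, smul_zero, map_zero, zero_mul]
    · intro hi
      exact absurd (mem_univ _) hi
  rcases mul_eq_zero.mp h2 with h5 | h5
  · exact absurd (hφ (h5.trans (map_zero φ).symm)) hdet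
  · exact h5

/-- coefficient form -/
theorem vander_coeff {D : Type*} [DivisionRing D] {N d : ℕ} (r : Fin N → ℕ)
    (hr : Function.Injective r) (c : Fin N → Fin d → D)
    (h : ∀ k (t : ℕ), ∑ i : Fin N, ∑ j : Fin d,
      (if r k * (i : ℕ) + (j : ℕ) = t then c i j else 0) = 0) : ∀ i j, c i j = 0 := by
  classical
  intro i₀ j₀
  have h1 := vander_poly r hr (fun i => ∑ j : Fin d, C (c i j) * X ^ (j : ℕ)) (by
    intro k
    ext t
    rw [finsetSum_coeff, coeff_zero, ← h k t]
    refine sum_congr rfl fun i _ => ?_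
    rw [mul_sum, finsetSum_coeff]
    refine sum_congr rfl fun j _ => ?_
    rw [← mul_assoc, X_pow_mul, mul_assoc, ← pow_add, coeff_C_mul, coeff_X_pow]
    by_cases ht : r k * (i : ℕ) + (j : ℕ) = t
    · rw [if_pos ht, if_pos ht.symm, mul_one]
    · rw [if_neg ht, if_neg (fun h' => ht h'.symm), mul_zero]) i₀
  have h2 := congrArg (fun q => coeff q (j₀ : ℕ)) h1
  simp only [finsetSum_coeff, coeff_C_mul, coeff_X_pow, coeff_zero] at h2
  rw [sum_eq_single j₀] at h2
  · simpa using h2
  · intro j _ hj
    rw [if_neg (fun h => hj (Fin.ext h.symm)), mul_zero]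
  · intro hj
    exact absurd (mem_univ _) hj

end Pool.Agent.Work.MP_87745a_al
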