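import Mathlib
import Pool.Agent.Work.MP_87745a_al_h31.Comb
import Pool.Agent.Work.MP_87745a_al_h31.Vander
import Pool.Agent.Work.MP_87745a_al_h31.LinSys

/-!
Key lemma: in a division ring graded by `G` with nonzero components, no finite `S ⊆ G` expands every
finite nonempty `F` by a factor larger than `H_|S|`.
-/

set_option autoImplicit false

open Finset Pointwise

namespace Pool.Agent.Work.MP_87745a_al

/-- counting step: the number of private pairs, summed over `F` -/
theorem sum_private (G : Type*) [Group G] [DecidableEq G] (S F : Finset G) :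
    ∑ f ∈ F, (univ.filter (fun p : {x // x ∈ S} × YY {x // x ∈ S} => p.1 ∈ p.2.1 ∧
      ∀ x' ∈ univ.filter (fun x' : {x // x ∈ S} => f * p.1.1 * x'.1⁻¹ ∈ F),
        x' ≠ p.1 → x' ∉ p.2.1)).card
      = S.card.factorial * (F * S).card := by
  classical
  let T := {x // x ∈ S}
  let I : G → Finset T := fun g => univ.filter (fun x' : T => g * x'.1⁻¹ ∈ F)
  have hT : Fintype.card T = S.card := Fintype.card_coe S
  have h1 : ∀ f ∈ F, (((univ.filter (fun p : T × YY T => p.1 ∈ p.2.1 ∧
      ∀ x' ∈ I (f * p.1.1), x' ≠ p.1 → x' ∉ p.2.1)).card : ℕ) : ℚ)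
      = ∑ x : T, (S.card.factorial : ℚ) / (I (f * x.1)).card := by
    intro f hf
    have e1 : (univ.filter (fun p : T × YY T => p.1 ∈ p.2.1 ∧
      ∀ x' ∈ I (f * p.1.1), x' ≠ p.1 → x' ∉ p.2.1)).card
      = ∑ x : T, (univ.filter (fun y : YY T => x ∈ y.1 ∧
      ∀ x' ∈ I (f * x.1), x' ≠ x → x' ∉ y.1)).card := by
      simp only [card_eq_sum_ones, sum_filter]
      rw [Fintype.sum_prod_type]
    rw [e1, Nat.cast_sum]
    refine sum_congr rfl fun x _ => ?_
    have hx : x ∈ I (f * x.1) := by
      simp only [I, mem_filter, mem_univ, true_and, mul_inv_cancel_right]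
      exact hf
    have h2 := card_private T (I (f * x.1)) x hx
    rw [hT] at h2
    have hpos : (0 : ℚ) < (I (f * x.1)).card := by
      exact_mod_cast card_pos.mpr ⟨x, hx⟩
    rw [eq_div_iff hpos.ne', mul_comm]
    exact_mod_cast h2
  have h2 : ∑ f ∈ F, ∑ x : T, (S.card.factorial : ℚ) / (I (f * x.1)).card
      = ∑ g ∈ F * S, ∑ x ∈ I g, (S.card.factorial : ℚ) / (I g).card := by
    rw [sum_sigma', sum_sigma']
    refine sum_nbij' (fun q : (_ : G) × T => (⟨q.1 * q.2.1, q.2⟩ : (_ : G) × T))
      (fun q : (_ : G) × T => (⟨q.1 * q.2.1⁻¹, q.2⟩ : (_ : G) × T)) ?_ ?_ ?_ ?_ ?_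
    · rintro ⟨f, x⟩ hq
      simp only [mem_sigma, mem_univ, and_true] at hq
      simp only [mem_sigma, I, mem_filter, mem_univ, true_and, mul_inv_cancel_right]
      exact ⟨mul_mem_mul hq x.2, hq⟩
    · rintro ⟨g, x⟩ hq
      simp only [mem_sigma, I, mem_filter, mem_univ, true_and] at hq
      simp only [mem_sigma, mem_univ, and_true]
      exact hq.2
    · rintro ⟨f, x⟩ hq
      simp only [mul_inv_cancel_right]
    · rintro ⟨g, x⟩ hq
      simp only [inv_mul_cancel_right]
    · rintro ⟨f, x⟩ hq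
      rfl
  have h3 : ∑ g ∈ F * S, ∑ x ∈ I g, (S.card.factorial : ℚ) / (I g).card
      = S.card.factorial * (F * S).card := by
    rw [mul_comm, ← nsmul_eq_mul]
    refine sum_eq_card_nsmul fun g hg => ?_
    rw [sum_const, nsmul_eq_mul]
    obtain ⟨f, hf, s, hs, rfl⟩ := mem_mul.mp hg
    have hx : (⟨s, hs⟩ : T) ∈ I (f * s) := by
      simp only [I, mem_filter, mem_univ, true_and, mul_inv_cancel_right]
      exact hf
    have hpos : (0 : ℚ) < (I (f * s)).card := by
      exact_mod_cast card_pos.mpr ⟨_, hx⟩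
    field_simp
  have h4 : ((∑ f ∈ F, (univ.filter (fun p : T × YY T => p.1 ∈ p.2.1 ∧
      ∀ x' ∈ I (f * p.1.1), x' ≠ p.1 → x' ∉ p.2.1)).card : ℕ) : ℚ)
      = ((S.card.factorial * (F * S).card : ℕ) : ℚ) := by
    rw [Nat.cast_sum, sum_congr rfl h1, h2, h3]
    push_cast
    rfl
  exact_mod_cast h4

/-- projection to a homogeneous component -/
noncomputable def proj {G : Type*} [Group G] {D : Type*} [DivisionRing D]
    [DecidableEq (Additive G)] (𝒜 : Additive G → AddSubgroup D) [GradedRing 𝒜] (g : G) : D →+ D :=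
  (AddSubgroup.subtype _).comp ((DFinsupp.evalAddMonoidHom (Additive.ofMul g)).comp
    (DirectSum.decomposeAddEquiv 𝒜).toAddMonoidHom)

theorem proj_apply {G : Type*} [Group G] {D : Type*} [DivisionRing D]
    [DecidableEq (Additive G)] (𝒜 : Additive G → AddSubgroup D) [GradedRing 𝒜] (g : G) (a : D) :
    proj 𝒜 g a = (DirectSum.decompose 𝒜 a (Additive.ofMul g) : D) := rfl

theorem proj_mul {G : Type*} [Group G] {D : Type*} [DivisionRing D]
    [DecidableEq (Additive G)] (𝒜 : Additive G → AddSubgroup D) [GradedRing 𝒜] (g s : G) (a b : D)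
    (hb : b ∈ 𝒜 (Additive.ofMul s)) : proj 𝒜 g (a * b) = proj 𝒜 (g * s⁻¹) a * b := by
  have h := DirectSum.coe_decompose_mul_add_of_right_mem 𝒜 (i := Additive.ofMul (g * s⁻¹))
    (a := a) hb
  have e : Additive.ofMul (g * s⁻¹) + Additive.ofMul s = Additive.ofMul g := by
    rw [← ofMul_mul, inv_mul_cancel_right]
  rw [e] at h
  exact h

theorem proj_band {G : Type*} [Group G] {D : Type*} [DivisionRing D]
    [DecidableEq (Additive G)] (𝒜 : Additive G → AddSubgroup D) [GradedRing 𝒜] (g : G)
    {N d : ℕ} (r : ℕ) (c : Fin N → Fin d → D) (t : ℕ) :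
    proj 𝒜 g (band r c t) = band r (fun i j => proj 𝒜 g (c i j)) t := by
  unfold band
  rw [map_sum]
  refine sum_congr rfl fun i _ => ?_
  rw [map_sum]
  refine sum_congr rfl fun j _ => ?_
  split_ifs
  · rfl
  · exact map_zero _

theorem exists_support {G : Type*} [Group G] {D : Type*} [DivisionRing D] [DecidableEq G]
    [DecidableEq (Additive G)] (𝒜 : Additive G → AddSubgroup D) [GradedRing 𝒜]
    {N d : ℕ} (c : Fin N → Fin d → D) :
    ∃ F : Finset G, ∀ g, g ∈ F ↔ ∃ i j, proj 𝒜 g (c i j) ≠ 0 := by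
  classical
  refine ⟨univ.biUnion fun i => univ.biUnion fun j =>
    (DirectSum.decompose 𝒜 (c i j)).support.image Additive.toMul, fun g => ?_⟩
  simp only [mem_biUnion, mem_univ, true_and, mem_image, DFinsupp.mem_support_toFun]
  constructor
  · rintro ⟨i, j, x, hx, rfl⟩
    refine ⟨i, j, fun h => hx ?_⟩
    exact Subtype.ext h
  · rintro ⟨i, j, h⟩
    refine ⟨i, j, Additive.ofMul g, fun hx => h ?_, rfl⟩
    rw [proj_apply]
    exact congrArg Subtype.val hx

theorem exists_proj_ne_zero {G : Type*} [Group G] {D : Type*} [DivisionRing D]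
    [DecidableEq (Additive G)] (𝒜 : Additive G → AddSubgroup D) [GradedRing 𝒜] (a : D)
    (ha : a ≠ 0) : ∃ g, proj 𝒜 g a ≠ 0 := by
  by_contra h
  push Not at h
  apply ha
  have h1 : DirectSum.decompose 𝒜 a = 0 := by
    ext x
    exact h (Additive.toMul x)
  exact (DirectSum.decompose 𝒜).injective (h1.trans (DirectSum.decompose_zero 𝒜).symm)

theorem key (G : Type*) [Group G] [DecidableEq G] (D : Type*) [DivisionRing D]
    [DecidableEq (Additive G)] (𝒜 : Additive G → AddSubgroup D) [GradedRing 𝒜]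
    (h𝒜 : ∀ g : Additive G, 𝒜 g ≠ ⊥) (S : Finset G) :
    ∃ F : Finset G, F.Nonempty ∧ ((F * S).card : ℚ) ≤ harmonic S.card * F.card := by
  classical
  by_contra hS
  push Not at hS
  -- homogeneous elements
  have hs : ∀ g : G, ∃ s : D, s ∈ 𝒜 (Additive.ofMul g) ∧ s ≠ 0 := by
    intro g
    obtain ⟨s, hs, hs0⟩ := (AddSubgroup.bot_or_exists_ne_zero (𝒜 (Additive.ofMul g))).resolve_left
      (h𝒜 _)
    exact ⟨s, hs, hs0⟩
  choose s hs hs0 using hs
  let T := {x // x ∈ S}
  let Y := YY T
  let e := Fintype.equivFin (T × Y)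
  obtain ⟨d, c, hc0, hc⟩ := exists_sol (D := D) (Y := Y) (T := T) (fun y => y.1)
    (fun x => s x.1) (fun x y => (e (x, y) : ℕ)) (Fintype.card (T × Y))
    (fun x y => (e (x, y)).2.le)
  obtain ⟨F, hF⟩ := exists_support 𝒜 c
  -- `F` is nonempty
  have hFne : F.Nonempty := by
    by_contra hne
    rw [not_nonempty_iff_eq_empty] at hne
    apply hc0
    ext i j
    by_contra hij
    obtain ⟨g, hg⟩ := exists_proj_ne_zero 𝒜 (c i j) hij
    have := (hF g).mpr ⟨i, j, hg⟩
    rw [hne] at this
    exact absurd this (notMem_empty g)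
  -- homogeneous components of the equations
  have hcomp : ∀ (y : Y) (t : ℕ) (g : G),
      ∑ x ∈ y.1, band (e (x, y) : ℕ) (fun i j => proj 𝒜 (g * x.1⁻¹) (c i j)) t * s x.1 = 0 := by
    intro y t g
    have h1 := congrArg (proj 𝒜 g) (hc y t)
    rw [map_sum, map_zero] at h1
    rw [← h1]
    refine sum_congr rfl fun x _ => ?_
    rw [proj_mul 𝒜 g x.1 _ _ (hs x.1), proj_band]
  -- every `f ∈ F` has at most `|Y|` private pairs
  have hpriv : ∀ f ∈ F, (univ.filter (fun p : T × YY T => p.1 ∈ p.2.1 ∧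
      ∀ x' ∈ univ.filter (fun x' : T => f * p.1.1 * x'.1⁻¹ ∈ F),
        x' ≠ p.1 → x' ∉ p.2.1)).card ≤ Fintype.card Y := by
    intro f hf
    by_contra hlt
    push Not at hlt
    set P := univ.filter (fun p : T × YY T => p.1 ∈ p.2.1 ∧
      ∀ x' ∈ univ.filter (fun x' : T => f * p.1.1 * x'.1⁻¹ ∈ F),
        x' ≠ p.1 → x' ∉ p.2.1) with hP
    have hle : Fintype.card (Fin (Fintype.card Y + 1)) ≤ P.card := by
      rw [Fintype.card_fin]; exact hlt
    obtain ⟨φ⟩ : Nonempty (Fin (Fintype.card Y + 1) ↪ {p // p ∈ P}) := by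
      apply Function.Embedding.nonempty_of_card_le
      rw [Fintype.card_coe]
      exact hle
    have hz := vander_coeff (fun k => (e (φ k).1 : ℕ))
      (fun a b hab => φ.injective (Subtype.ext (e.injective (Fin.ext hab))))
      (fun i j => proj 𝒜 f (c i j)) (by
        intro k t
        obtain ⟨⟨x, y⟩, hp⟩ := φ k
        rw [hP, mem_filter] at hp
        obtain ⟨-, hxy, hpr⟩ := hp
        simp only [mem_filter, mem_univ, true_and] at hpr hxy
        have h1 := hcomp y t (f * x.1)
        rw [sum_eq_single x] at h1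
        · rcases mul_eq_zero.mp h1 with h2 | h2
          · rw [mul_inv_cancel_right] at h2
            exact h2
          · exact absurd h2 (hs0 _)
        · intro x' hx' hne
          have h2 : f * x.1 * x'.1⁻¹ ∉ F := fun hmem => hpr x' hmem hne hx'
          have h3 : ∀ i j, proj 𝒜 (f * x.1 * x'.1⁻¹) (c i j) = 0 := by
            intro i j
            by_contra hij
            exact h2 ((hF _).mpr ⟨i, j, hij⟩)
          have h4 : band (e (x', y) : ℕ)
              (fun i j => proj 𝒜 (f * x.1 * x'.1⁻¹) (c i j)) t = 0 := by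
            unfold band
            refine sum_eq_zero fun i _ => sum_eq_zero fun j _ => ?_
            split_ifs
            · exact h3 i j
            · rfl
          rw [h4, zero_mul]
        · intro hx
          exact absurd hxy hx)
    obtain ⟨i, j, hij⟩ := (hF f).mp hf
    exact hij (hz i j)
  have hsum := sum_private G S F
  have hle : S.card.factorial * (F * S).card ≤ F.card * Fintype.card Y := by
    rw [← hsum, ← smul_eq_mul (F.card)]
    exact sum_le_card_nsmul _ _ _ hpriv
  have hY : ((Fintype.card Y : ℕ) : ℚ) = S.card.factorial * harmonic S.card := by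
    have := card_YY T
    rw [Fintype.card_coe] at this
    exact this
  have h1 := hS F hFne
  have h2 : ((S.card.factorial * (F * S).card : ℕ) : ℚ) ≤ ((F.card * Fintype.card Y : ℕ) : ℚ) := by
    exact_mod_cast hle
  push_cast at h2
  rw [hY] at h2
  have h3 : (0 : ℚ) < S.card.factorial := by exact_mod_cast S.card.factorial_pos
  nlinarith [mul_lt_mul_of_pos_left h1 h3]

end Pool.Agent.Work.MP_87745a_al
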