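import Mathlib
import Pool.Agent.Work.MP_87745a_al_h31.Key

/-!
A division ring graded by `G` with nonzero components forces the Folner condition for `G`.
-/

set_option autoImplicit false

open Finset Pointwise Filter

namespace Pool.Agent.Work.MP_87745a_al

theorem exists_pow (m : ℕ) (ε : ℝ) (hε : 0 < ε) :
    ∃ k : ℕ, 1 + k * Real.log m < (1 + ε) ^ k := by
  have h1 : (1 : ℝ) < 1 + ε := by linarith
  have hL : 0 ≤ Real.log m := Real.log_natCast_nonneg m
  have ht1 := tendsto_pow_const_div_const_pow_of_one_lt 1 h1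
  have ht0 := tendsto_pow_const_div_const_pow_of_one_lt 0 h1
  have hpos : 0 < 1 / (2 * (1 + Real.log m)) := by positivity
  have e1 := ht1.eventually (gt_mem_nhds hpos)
  have e0 := ht0.eventually (gt_mem_nhds (show (0 : ℝ) < 1 / 2 by norm_num))
  obtain ⟨k, hk1, hk0⟩ := (e1.and e0).exists
  refine ⟨k, ?_⟩
  have hp : 0 < (1 + ε) ^ k := by positivity
  rw [pow_one, div_lt_div_iff₀ hp (by positivity)] at hk1
  rw [pow_zero, div_lt_div_iff₀ hp (by norm_num)] at hk0
  have hk : (0 : ℝ) ≤ k := Nat.cast_nonneg k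
  nlinarith [mul_nonneg hk hL]

/-- Folner condition for a group grading a division ring with nonzero components. -/
theorem folner (G : Type*) [Group G] (D : Type*) [DivisionRing D]
    [DecidableEq (Additive G)] (𝒜 : Additive G → AddSubgroup D) [GradedRing 𝒜]
    (h𝒜 : ∀ g : Additive G, 𝒜 g ≠ ⊥) (S : Finset G) (ε : ℝ) (hε : 0 < ε) :
    ∃ F : Finset G, F.Nonempty ∧
      ∀ s ∈ S, ({g : G | g ∈ F ∧ g * s ∉ F}.ncard : ℝ) ≤ ε * F.card := by
  classical
  by_contra hcon
  push Not at hcon
  let S₁ : Finset G := insert 1 S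
  have hstep : ∀ F : Finset G, F.Nonempty → (1 + ε) * (F.card : ℝ) ≤ ((F * S₁).card : ℝ) := by
    intro F hF
    obtain ⟨s, hs, hlt⟩ := hcon F hF
    have h1 : {g : G | g ∈ F ∧ g * s ∉ F}.ncard = (F.filter (fun g => g * s ∉ F)).card := by
      rw [← Set.ncard_coe_finset]
      congr 1
      ext g
      simp
    rw [h1] at hlt
    have h2 : (F ∪ (F.filter (fun g => g * s ∉ F)).image (· * s)) ⊆ F * S₁ := by
      intro x hx
      rw [mem_union] at hx
      rcases hx with hx | hx
      · exact mem_mul.mpr ⟨x, hx, 1, mem_insert_self _ _, mul_one x⟩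
      · rw [mem_image] at hx
        obtain ⟨g, hg, rfl⟩ := hx
        exact mul_mem_mul (mem_filter.mp hg).1 (mem_insert_of_mem hs)
    have h3 : (F ∪ (F.filter (fun g => g * s ∉ F)).image (· * s)).card
        = F.card + (F.filter (fun g => g * s ∉ F)).card := by
      rw [card_union_of_disjoint, card_image_of_injective _ (mul_left_injective s)]
      rw [disjoint_left]
      intro x hx hx'
      rw [mem_image] at hx'
      obtain ⟨g, hg, rfl⟩ := hx'
      exact (mem_filter.mp hg).2 hx
    have h4 := card_le_card h2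
    rw [h3] at h4
    have h5 : (F.card : ℝ) + (F.filter (fun g => g * s ∉ F)).card ≤ (F * S₁).card := by
      exact_mod_cast h4
    linarith
  have hpow : ∀ (k : ℕ) (F : Finset G), F.Nonempty →
      (1 + ε) ^ k * (F.card : ℝ) ≤ ((F * S₁ ^ k).card : ℝ) := by
    intro k
    induction k with
    | zero =>
      intro F _
      simp
    | succ k ih =>
      intro F hF
      have h1 : (F * S₁ ^ k).Nonempty := by
        apply hF.mul
        exact (insert_nonempty 1 S).pow
      have h2 := hstep _ h1
      have h3 := ih F hF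
      rw [pow_succ S₁, ← mul_assoc, pow_succ]
      calc (1 + ε) ^ k * (1 + ε) * (F.card : ℝ) = (1 + ε) * ((1 + ε) ^ k * F.card) := by ring
        _ ≤ (1 + ε) * ((F * S₁ ^ k).card : ℝ) := by
            apply mul_le_mul_of_nonneg_left h3
            linarith
        _ ≤ _ := h2
  obtain ⟨k, hk⟩ := exists_pow S₁.card ε hε
  obtain ⟨F, hF, hFk⟩ := key G D 𝒜 h𝒜 (S₁ ^ k)
  have h1 := hpow k F hF
  have h2 : ((F * S₁ ^ k).card : ℝ) ≤ (harmonic (S₁ ^ k).card : ℝ) * F.card := by
    exact_mod_cast hFk
  have h3 := harmonic_le_one_add_log (S₁ ^ k).card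
  have hpos : 0 < (S₁ ^ k).card := card_pos.mpr (insert_nonempty 1 S).pow
  have h4 : Real.log ((S₁ ^ k).card : ℝ) ≤ k * Real.log S₁.card := by
    rw [← Real.log_pow]
    apply Real.log_le_log
    · exact_mod_cast hpos
    · exact_mod_cast card_pow_le
  have hFpos : (0 : ℝ) < F.card := by exact_mod_cast card_pos.mpr hF
  have h5 : (harmonic (S₁ ^ k).card : ℝ) * F.card < (1 + ε) ^ k * F.card := by
    apply mul_lt_mul_of_pos_right _ hFpos
    linarith
  linarith

end Pool.Agent.Work.MP_87745a_al
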